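import Pool.Agent.Helper25_CN3.Stmts

/-!
Squad CN3 (MP_6d18f4_al, Q2), module W_SGN: the vectors of norm 2 orthogonal to a_0 and a_1 are, up to
sign, combinations of the simple roots with nonnegative coefficients.
-/

noncomputable section

namespace Pool.Agent.H27.CN3

open Pool.Agent.H25Cong Pool.Agent.CON Pool.Agent.CN2 Pool.Agent.CN3

variable {n : ℕ}

/-- the sum of the vectors of the hyperbolic pair is timelike -/
lemma tl_neg {e f : V n} (he : B e e = 0) (hf : B f f = 0) (hef : B e f = -1) :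
    B (e + f) (e + f) < 0 := by
  rw [B_add_left, B_add_right, B_add_right, he, hf, hef, B_comm f e, hef]
  norm_num

lemma ort_nonneg {e f x : V n} (he : B e e = 0) (hf : B f f = 0) (hef : B e f = -1)
    (hxe : B x e = 0) (hxf : B x f = 0) : 0 ≤ B x x :=
  perp_nonneg (tl_neg he hf hef) (by rw [B_add_right, hxe, hxf, add_zero])

lemma ort_zero {e f x : V n} (he : B e e = 0) (hf : B f f = 0) (hef : B e f = -1)
    (hxe : B x e = 0) (hxf : B x f = 0) (hxx : B x x = 0) : x = 0 :=
  perp_eq_zero (tl_neg he hf hef) (by rw [B_add_right, hxe, hxf, add_zero]) hxx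

lemma bg_len {a : Module.Basis (Fin (n + 1)) ℝ (V n)} {G : List (List ℤ)} (h : BG a G) :
    G.length = n + 1 := by
  have := h.sym
  unfold symB at this
  simp only [Bool.and_eq_true, decide_eq_true_eq] at this
  exact this.1.1.1

lemma av_gram {a : Module.Basis (Fin (n + 1)) ℝ (V n)} {G : List (List ℤ)} (h : BG a G)
    {i j : ℕ} (hi : i < n + 1) (hj : j < n + 1) : B (av a i) (av a j) = ((ent G i j : ℤ) : ℝ) := by
  unfold av
  rw [dif_pos hi, dif_pos hj]
  exact h.gram ⟨i, hi⟩ ⟨j, hj⟩

lemma av_mem (a : Module.Basis (Fin (n + 1)) ℝ (V n)) (k : ℕ) : av a k ∈ LL a := by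
  unfold av
  split
  · exact Submodule.subset_span ⟨_, rfl⟩
  · exact Submodule.zero_mem _

lemma smul_av_mem (a : Module.Basis (Fin (n + 1)) ℝ (V n)) (z : ℤ) {v : V n} (hv : v ∈ LL a) :
    ((z : ℤ) : ℝ) • v ∈ LL a := by
  rw [Int.cast_smul_eq_zsmul]
  exact Submodule.smul_mem _ _ hv

/-- W1 -/
theorem w_sgn (hHYP : V_HYP) (hEVN : V_EVN) (_hMEM : V_MEM) : W_SGN := by
  intro n a G q hBG hH hS x hx hx0 hx1 hx2
  obtain ⟨hn, he, hf, hef, hk, hexp⟩ := hHYP n a G hBG hH
  have hE := hEVN n a G hBG
  have hlen := bg_len hBG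
  obtain ⟨z, hxz, hz0, hz1⟩ := hexp x hx
  have hz0' : z 0 = 0 := by
    have : ((z 0 : ℤ) : ℝ) = 0 := by rw [hx1] at hz0; linarith
    exact_mod_cast this
  have hz1' : z 1 = 0 := by
    have : ((z 1 : ℤ) : ℝ) = 0 := by rw [hx0] at hz1; linarith
    exact_mod_cast this
  rw [hz0', hz1'] at hxz
  simp only [Int.cast_zero, zero_smul, zero_add] at hxz
  -- the entries
  unfold simB at hS
  rw [Bool.and_eq_true] at hS
  obtain ⟨hS1, hS2⟩ := hS
  rw [hlen] at hS1 hS2
  have hq : q + 2 ≤ n + 1 := by
    simp only [Bool.or_eq_true, Bool.and_eq_true, decide_eq_true_eq] at hS2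
    rcases hS2 with h | ⟨⟨h, _⟩, _⟩ <;> omega
  have hent : ∀ i j : ℕ, 2 ≤ i → 2 ≤ j → i < q + 2 → j < q + 2 →
      (if i = j then ent G i j = 2 else ent G i j ≤ 0) := by
    intro i j hi hj hi' hj'
    rw [List.all_eq_true] at hS1
    have h1 := hS1 i (List.mem_range.2 (by omega))
    rw [List.all_eq_true] at h1
    have h2 := h1 j (List.mem_range.2 (by omega))
    simp only [Bool.or_eq_true, decide_eq_true_eq] at h2
    by_cases hij : i = j
    · rw [if_pos hij] at h2 ⊢
      simp only [decide_eq_true_eq] at h2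
      rcases h2 with (((h | h) | h) | h) | h
      all_goals omega
    · rw [if_neg hij] at h2 ⊢
      simp only [decide_eq_true_eq] at h2
      rcases h2 with (((h | h) | h) | h) | h
      all_goals omega
  -- reduction to the simple roots
  have hx' : x = ∑ k ∈ Finset.Ico 2 (q + 2), ((z k : ℤ) : ℝ) • av a k := by
    rcases Nat.lt_or_ge (q + 2) (n + 1) with hlt | hge
    · simp only [Bool.or_eq_true, Bool.and_eq_true, decide_eq_true_eq] at hS2
      rcases hS2 with h | ⟨⟨h1, h2⟩, h3⟩
      · omega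
      · have hn1 : Finset.Ico 2 (n + 1) = Finset.Ico 2 (q + 2 + 1) := by
          have : n + 1 = q + 2 + 1 := by omega
          rw [this]
        rw [hn1, Finset.sum_Ico_succ_top (by omega)] at hxz
        set x' : V n := ∑ k ∈ Finset.Ico 2 (q + 2), ((z k : ℤ) : ℝ) • av a k with hx'def
        have h5 : B x' (av a (q + 2)) = 0 := by
          rw [hx'def, B_sum_left]
          apply Finset.sum_eq_zero
          intro k hk'
          rw [Finset.mem_Ico] at hk'
          rw [List.all_eq_true] at h3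
          have h6 := h3 k (List.mem_range.2 hk'.2)
          rw [decide_eq_true_eq] at h6
          rw [B_smul_left, B_comm, av_gram hBG (by omega) (by omega), h6]
          simp
        have h7 : B (av a (q + 2)) (av a (q + 2)) = ((ent G (q + 2) (q + 2) : ℤ) : ℝ) :=
          av_gram hBG (by omega) (by omega)
        have h8 : (4 : ℝ) ≤ ((ent G (q + 2) (q + 2) : ℤ) : ℝ) := by exact_mod_cast h2
        have h9 : 0 ≤ B x' x' := by
          apply ort_nonneg he hf hef
          · rw [hx'def, B_sum_left]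
            apply Finset.sum_eq_zero
            intro k hk'
            rw [Finset.mem_Ico] at hk'
            rw [B_smul_left, (hk k hk'.1).1, mul_zero]
          · rw [hx'def, B_sum_left]
            apply Finset.sum_eq_zero
            intro k hk'
            rw [Finset.mem_Ico] at hk'
            rw [B_smul_left, (hk k hk'.1).2, mul_zero]
        have h10 : B x x = B x' x' + ((z (q + 2) : ℤ) : ℝ) ^ 2 *
            B (av a (q + 2)) (av a (q + 2)) := by
          rw [hxz, B_add_left, B_add_right, B_add_right, B_smul_left, B_smul_right, B_smul_left,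
            B_smul_right, B_comm (av a (q + 2)) x', h5]
          ring
        have h11 : z (q + 2) = 0 := by
          by_contra hne
          have h12 : (1 : ℝ) ≤ ((z (q + 2) : ℤ) : ℝ) ^ 2 := by
            have : (1 : ℤ) ≤ (z (q + 2)) ^ 2 := by
              have := sq_nonneg (z (q + 2))
              have h0 : (z (q + 2)) ^ 2 ≠ 0 := pow_ne_zero 2 hne
              omega
            exact_mod_cast this
          rw [hx2, h7] at h10
          nlinarith
        rw [h11] at hxz
        rw [hxz]
        simp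
    · have hn1 : Finset.Ico 2 (n + 1) = Finset.Ico 2 (q + 2) := by
        have : n + 1 = q + 2 := by omega
        rw [this]
      rw [hn1] at hxz
      exact hxz
  -- positive and negative parts
  set p : V n := ∑ k ∈ Finset.Ico 2 (q + 2), (((z k).toNat : ℕ) : ℝ) • av a k with hp
  set m : V n := ∑ k ∈ Finset.Ico 2 (q + 2), (((- z k).toNat : ℕ) : ℝ) • av a k with hm
  have hxpm : x = p - m := by
    rw [hx', hp, hm, ← Finset.sum_sub_distrib]
    apply Finset.sum_congr rfl
    intro k _
    rw [← sub_smul]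
    congr 1
    have : z k = ((z k).toNat : ℤ) - ((-z k).toNat : ℤ) := by omega
    have h2 : ((z k : ℤ) : ℝ) = (((z k).toNat : ℤ) : ℝ) - (((-z k).toNat : ℤ) : ℝ) := by
      exact_mod_cast congrArg (fun t : ℤ => (t : ℝ)) this
    rw [h2, Int.cast_natCast, Int.cast_natCast]
  have hpm : B p m ≤ 0 := by
    rw [hp, hm, B_sum_left]
    apply Finset.sum_nonpos
    intro i hi
    rw [B_smul_left, B_sum_right, Finset.mul_sum]
    apply Finset.sum_nonpos
    intro j hj
    rw [Finset.mem_Ico] at hi hj
    rw [B_smul_right, av_gram hBG (by omega) (by omega)]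
    have h3 := hent i j hi.1 hj.1 hi.2 hj.2
    by_cases hij : i = j
    · subst hij
      have : (z i).toNat = 0 ∨ (- z i).toNat = 0 := by omega
      rcases this with h | h <;> simp [h]
    · rw [if_neg hij] at h3
      have h4 : ((ent G i j : ℤ) : ℝ) ≤ 0 := by exact_mod_cast h3
      have h5 : (0 : ℝ) ≤ (((z i).toNat : ℕ) : ℝ) := Nat.cast_nonneg _
      have h6 : (0 : ℝ) ≤ (((- z j).toNat : ℕ) : ℝ) := Nat.cast_nonneg _
      have h7 : (((- z j).toNat : ℕ) : ℝ) * ((ent G i j : ℤ) : ℝ) ≤ 0 :=
        mul_nonpos_of_nonneg_of_nonpos h6 h4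
      exact mul_nonpos_of_nonneg_of_nonpos h5 h7
  have hort : ∀ c : ℕ → ℕ, B (∑ k ∈ Finset.Ico 2 (q + 2), ((c k : ℕ) : ℝ) • av a k) (av a 0) = 0 ∧
      B (∑ k ∈ Finset.Ico 2 (q + 2), ((c k : ℕ) : ℝ) • av a k) (av a 1) = 0 := by
    intro c
    constructor
    · rw [B_sum_left]
      apply Finset.sum_eq_zero
      intro k hk'
      rw [Finset.mem_Ico] at hk'
      rw [B_smul_left, (hk k hk'.1).1, mul_zero]
    · rw [B_sum_left]
      apply Finset.sum_eq_zero
      intro k hk'
      rw [Finset.mem_Ico] at hk'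
      rw [B_smul_left, (hk k hk'.1).2, mul_zero]
  have hmem : ∀ c : ℕ → ℕ, (∑ k ∈ Finset.Ico 2 (q + 2), ((c k : ℕ) : ℝ) • av a k) ∈ LL a := by
    intro c
    apply Submodule.sum_mem
    intro k _
    have := smul_av_mem a (c k : ℤ) (av_mem a k)
    simpa using this
  have hpp := ort_nonneg he hf hef (hort fun k => (z k).toNat).1 (hort fun k => (z k).toNat).2
  have hmm := ort_nonneg he hf hef (hort fun k => (-z k).toNat).1
    (hort fun k => (-z k).toNat).2
  rw [← hp] at hpp
  rw [← hm] at hmm
  obtain ⟨kp, hkp⟩ := hE.even p (hmem fun k => (z k).toNat)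
  obtain ⟨km, hkm⟩ := hE.even m (hmem fun k => (-z k).toNat)
  have hsum : B x x = B p p + B m m - 2 * B p m := by
    rw [hxpm, B_sub_left, B_sub_right, B_sub_right, B_comm m p]
    ring
  have hle : B p p + B m m ≤ 2 := by rw [hx2] at hsum; linarith
  have hkp0 : 0 ≤ kp := by
    have : (0 : ℝ) ≤ (kp : ℝ) := by rw [hkp] at hpp; linarith
    exact_mod_cast this
  have hkm0 : 0 ≤ km := by
    have : (0 : ℝ) ≤ (km : ℝ) := by rw [hkm] at hmm; linarith
    exact_mod_cast this
  have hkk : kp + km ≤ 1 := by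
    have : (kp : ℝ) + (km : ℝ) ≤ 1 := by rw [hkp, hkm] at hle; linarith
    exact_mod_cast this
  have hcases : kp = 0 ∨ km = 0 := by omega
  have hshift : ∀ c : ℕ → ℕ, (∑ k ∈ Finset.Ico 2 (q + 2), ((c k : ℕ) : ℝ) • av a k) =
      ∑ i ∈ Finset.range q, ((c (2 + i) : ℕ) : ℝ) • av a (2 + i) := by
    intro c
    rw [Finset.sum_Ico_eq_sum_range]
    simp
  rcases hcases with h | h
  · have hp0 : p = 0 := by
      apply ort_zero he hf hef (hort fun k => (z k).toNat).1 (hort fun k => (z k).toNat).2
      rw [← hp, hkp, h]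
      simp
    refine ⟨fun i => (-z (2 + i)).toNat, Or.inr ?_⟩
    rw [hxpm, hp0, zero_sub, hm, hshift fun k => (-z k).toNat]
  · have hm0 : m = 0 := by
      apply ort_zero he hf hef (hort fun k => (-z k).toNat).1 (hort fun k => (-z k).toNat).2
      rw [← hm, hkm, h]
      simp
    refine ⟨fun i => (z (2 + i)).toNat, Or.inl ?_⟩
    rw [hxpm, hm0, sub_zero, hp, hshift fun k => (z k).toNat]

end Pool.Agent.H27.CN3

end
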