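import Pool.Agent.Helper27_CN3.Sgn
import Pool.Agent.Helper2_CN2.IChg

/-!
Squad CN3 (MP_6d18f4_al, Q2), module O_TYP: the type of a null vector is an obstruction to its
equivalence with a_0.
-/

noncomputable section

namespace Pool.Agent.H27.CN3

open Pool.Agent.H25Cong Pool.Agent.CON Pool.Agent.CN2 Pool.Agent.CN3 Pool.Agent.CN2.H2

variable {n : ℕ}

/-- vectors independent modulo e in the span of e and the y k -/
lemma card_le_ind {I K : Finset ℕ} (e : V n) (x y : ℕ → V n) (c : ℕ → ℝ) (z : ℕ → ℕ → ℝ)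
    (hx : ∀ i ∈ I, x i = c i • e + ∑ k ∈ K, z i k • y k)
    (hind : ∀ (l : ℕ → ℝ) (t : ℝ), (∀ i, i ∉ I → l i = 0) → ∑ i ∈ I, l i • x i = t • e →
      ∀ i ∈ I, l i = 0) : I.card ≤ K.card := by
  classical
  let T : (I → ℝ) →ₗ[ℝ] (K → ℝ) := (Matrix.of fun (k : K) (i : I) => z i k).mulVecLin
  have hT : Function.Injective T := by
    rw [injective_iff_map_eq_zero]
    intro l hl
    have h1 : ∀ k ∈ K, ∑ i : I, z i k * l i = 0 := by
      intro k hk
      have h := congrFun hl ⟨k, hk⟩
      simpa [T, Matrix.mulVec, dotProduct] using h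
    set l' : ℕ → ℝ := fun i => if h : i ∈ I then l ⟨i, h⟩ else 0 with hl'
    have hl'i : ∀ i : I, l' i = l i := by
      intro i
      simp only [hl']
      rw [dif_pos i.2]
    have h2 : ∑ i ∈ I, l' i • x i = (∑ i ∈ I, l' i * c i) • e := by
      have e1 : ∑ i ∈ I, l' i • x i =
          ∑ i ∈ I, ((l' i * c i) • e + ∑ k ∈ K, (z i k * l' i) • y k) := by
        apply Finset.sum_congr rfl
        intro i hi
        rw [hx i hi, smul_add, smul_smul, Finset.smul_sum]
        congr 1
        apply Finset.sum_congr rfl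
        intro k _
        rw [smul_smul, mul_comm]
      rw [e1, Finset.sum_add_distrib, ← Finset.sum_smul, Finset.sum_comm]
      have e2 : ∑ k ∈ K, ∑ i ∈ I, (z i k * l' i) • y k = 0 := by
        apply Finset.sum_eq_zero
        intro k hk
        rw [← Finset.sum_smul]
        have e3 : ∑ i ∈ I, z i k * l' i = ∑ i : I, z i k * l i := by
          rw [← Finset.sum_coe_sort I (fun i => z i k * l' i)]
          apply Finset.sum_congr rfl
          intro i _
          rw [hl'i]
        rw [e3, h1 k hk, zero_smul]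
      rw [e2, add_zero]
    have h3 := hind l' _ (fun i hi => by simp only [hl']; rw [dif_neg hi]) h2
    ext i
    have h4 := h3 i i.2
    rw [hl'i] at h4
    simpa using h4
  have h := LinearMap.finrank_le_finrank_of_injective hT
  simpa using h

lemma cnt_eq (k : ℕ) (f : ℕ → ℕ) (j : ℕ) :
    cnt k f j = ((Finset.range k).filter fun i => f i = j).card := rfl

/-- O3 -/
theorem o_typ (hIP : V_IP) (_hMEM : V_MEM) (hHYP : V_HYP) (hNRM : O_NRM) : O_TYP := by
  classical
  intro n a G κ ε o g hBG hH hT hg hge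
  obtain ⟨hn, he, hf, hef, hk, hexp⟩ := hHYP n a G hBG hH
  have hlen := bg_len hBG
  unfold typB at hT
  simp only [Bool.and_eq_true, decide_eq_true_eq] at hT
  obtain ⟨⟨⟨⟨⟨⟨⟨⟨hκ, hcomp⟩, hΔ⟩, hβ⟩, hblk⟩, hK⟩, hKr⟩, hD⟩, hinv⟩ := hT
  rw [hlen] at hκ hcomp
  have hcomp' : ∀ i j : ℕ, 2 ≤ i → 2 ≤ j → i < n + 1 → j < n + 1 →
      (fun i => κ.getD i 0) i ≠ (fun i => κ.getD i 0) j → ent G i j = 0 := by
    intro i j hi hj hi' hj' hne
    rw [List.all_eq_true] at hcomp
    have h1 := hcomp i (List.mem_range.2 hi')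
    rw [List.all_eq_true] at h1
    have h2 := h1 j (List.mem_range.2 hj')
    simp only [Bool.or_eq_true, decide_eq_true_eq] at h2
    rcases h2 with ((h | h) | h) | h
    · omega
    · omega
    · exact absurd h hne
    · exact h
  have hΔ' : ∀ i < o.Δ.length, gip G (o.Δ.getD i []) (o.Δ.getD i []) = 2 ∧
      gip G (o.Δ.getD i []) ε = 0 := by
    intro i hi
    rw [List.all_eq_true] at hΔ
    have h1 := hΔ (o.Δ.getD i []) (by
      rw [List.getD_eq_getElem _ _ hi]; exact List.getElem_mem hi)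
    simp only [Bool.and_eq_true, decide_eq_true_eq] at h1
    exact ⟨h1.1.2, h1.2⟩
  have hgi : g⁻¹ ∈ OLat (LL a) := (OLat (LL a)).inv_mem hg
  set x : ℕ → V n := fun i => g⁻¹ (lv a (o.Δ.getD i [])) with hxdef
  have hgx : ∀ i, g (x i) = lv a (o.Δ.getD i []) := fun i => g.apply_symm_apply _
  have hxx : ∀ i j, B (x i) (x j) = ((gip G (o.Δ.getD i []) (o.Δ.getD j []) : ℤ) : ℝ) := by
    intro i j
    rw [← hg.1 (x i) (x j), hgx, hgx, hIP n a G hBG]
  have hxe : ∀ i < o.Δ.length, B (x i) (av a 0) = 0 := by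
    intro i hi
    rw [← hg.1 (x i) (av a 0), hgx]
    rcases hge with h | h
    · rw [h, hIP n a G hBG, (hΔ' i hi).2, Int.cast_zero]
    · rw [h, B_neg_right, hIP n a G hBG, (hΔ' i hi).2, Int.cast_zero, neg_zero]
  have hxmem : ∀ i, x i ∈ LL a := by
    intro i
    rw [← hg.2, hgx]
    exact (_hMEM n a).1 _
  have hN : ∀ i : ℕ, i < o.Δ.length → ∃ k : ℕ, 2 ≤ k ∧ k < n + 1 ∧ ∃ z : ℕ → ℤ, ∃ c : ℝ,
      x i = c • av a 0 +
      ∑ j ∈ (Finset.Ico 2 (n + 1)).filter (fun j => κ.getD j 0 = κ.getD k 0),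
        ((z j : ℤ) : ℝ) • av a j := by
    intro i hi
    exact hNRM n a G (fun i => κ.getD i 0) (x i) hBG hH hcomp' (hxmem i) (hxe i hi)
      (by rw [hxx, (hΔ' i hi).1]; norm_num)
  choose! k hk2 hk3 z c hxz using hN
  set C : ℕ → ℕ := fun i => κ.getD (k i) 0 with hC
  have hsame : ∀ i < o.Δ.length, ∀ j < o.Δ.length, B (x i) (x j) ≠ 0 → C i = C j := by
    intro i hi j hj hne
    by_contra hCne
    apply hne
    rw [hxz i hi, hxz j hj, B_add_left, B_add_right, B_add_right, B_smul_left, B_smul_right, he]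
    have e1 : ∀ (t : ℝ) (S : Finset ℕ) (w : ℕ → ℤ), (∀ l ∈ S, 2 ≤ l) →
        B (t • av a 0) (∑ l ∈ S, ((w l : ℤ) : ℝ) • av a l) = 0 := by
      intro t S w hS
      rw [B_smul_left, B_sum_right, Finset.sum_eq_zero, mul_zero]
      intro l hl
      rw [B_smul_right, B_comm, (hk l (hS l hl)).1, mul_zero]
    have hmem : ∀ m : ℕ, ∀ l ∈ (Finset.Ico 2 (n + 1)).filter
        (fun j => κ.getD j 0 = κ.getD m 0), 2 ≤ l := by
      intro m l hl
      rw [Finset.mem_filter, Finset.mem_Ico] at hl
      exact hl.1.1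
    rw [e1 (c i) _ (z j) (hmem (k j)), B_comm _ (c j • av a 0), e1 (c j) _ (z i) (hmem (k i))]
    have e2 : B (∑ l ∈ (Finset.Ico 2 (n + 1)).filter (fun l => κ.getD l 0 = κ.getD (k i) 0),
          ((z i l : ℤ) : ℝ) • av a l)
        (∑ l ∈ (Finset.Ico 2 (n + 1)).filter (fun l => κ.getD l 0 = κ.getD (k j) 0),
          ((z j l : ℤ) : ℝ) • av a l) = 0 := by
      rw [B_sum_left]
      apply Finset.sum_eq_zero
      intro l hl
      rw [B_smul_left, B_sum_right, Finset.sum_eq_zero, mul_zero]
      intro m hm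
      rw [Finset.mem_filter, Finset.mem_Ico] at hl hm
      rw [B_smul_right, av_gram hBG hl.1.2 hm.1.2, hcomp' l m hl.1.1 hm.1.1 hl.1.2 hm.1.2,
        Int.cast_zero, mul_zero]
      show κ.getD l 0 ≠ κ.getD m 0
      rw [hl.2, hm.2]
      exact hCne
    rw [e2]
    ring
  have hblk' : ∀ i < o.Δ.length, (∀ j < i, o.β.getD j 0 ≠ o.β.getD i 0) ∨
      ∃ j < i, o.β.getD j 0 = o.β.getD i 0 ∧ gip G (o.Δ.getD i []) (o.Δ.getD j []) ≠ 0 := by
    intro i hi
    rw [List.all_eq_true] at hblk
    have h1 := hblk i (List.mem_range.2 (by omega))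
    rw [Bool.or_eq_true, List.all_eq_true, List.any_eq_true] at h1
    rcases h1 with h | ⟨j, hj, h⟩
    · left
      intro j hj
      have := h j (List.mem_range.2 hj)
      rwa [decide_eq_true_eq] at this
    · right
      rw [Bool.and_eq_true, decide_eq_true_eq, decide_eq_true_eq] at h
      exact ⟨j, List.mem_range.1 hj, h.1, h.2⟩
  set σ : ℕ → ℕ := fun b =>
    if h : ∃ i, i < o.Δ.length ∧ o.β.getD i 0 = b then C (Nat.find h) else 0 with hσdef
  have hσ : ∀ i < o.Δ.length, σ (o.β.getD i 0) = C i := by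
    intro i
    induction i using Nat.strong_induction_on with
    | _ i ih =>
      intro hi
      rcases hblk' i hi with h | ⟨j, hj, hb, hne⟩
      · have hex : ∃ i', i' < o.Δ.length ∧ o.β.getD i' 0 = o.β.getD i 0 := ⟨i, hi, rfl⟩
        have hfind : Nat.find hex = i :=
          (Nat.find_eq_iff hex).2 ⟨⟨hi, rfl⟩, fun j hj h' => h j hj h'.2⟩
        show (if h : ∃ i', i' < o.Δ.length ∧ o.β.getD i' 0 = o.β.getD i 0 then
          C (Nat.find h) else 0) = C i
        rw [dif_pos hex, hfind]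
      · rw [← hb, ih j hj (by omega)]
        apply hsame j (by omega) i hi
        rw [B_comm, hxx]
        exact_mod_cast hne
  refine ⟨σ, fun j => ?_⟩
  rw [cnt_eq, cnt_eq, hβ, hκ]
  have hI : (Finset.range o.Δ.length).filter (fun i => σ (o.β.getD i 0) = j) =
      (Finset.range o.Δ.length).filter (fun i => C i = j) := by
    apply Finset.filter_congr
    intro i hi
    rw [hσ i (Finset.mem_range.1 hi)]
  rw [hI]
  have hKc : ((Finset.Ico 2 (n + 1)).filter (fun i => κ.getD i 0 = j)).card ≤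
      ((Finset.range (n + 1 - 2)).filter (fun i => κ.getD (i + 2) 0 = j)).card := by
    have hsub : (Finset.Ico 2 (n + 1)).filter (fun i => κ.getD i 0 = j) ⊆
        ((Finset.range (n + 1 - 2)).filter (fun i => κ.getD (i + 2) 0 = j)).image (· + 2) := by
      intro i hi
      rw [Finset.mem_filter, Finset.mem_Ico] at hi
      rw [Finset.mem_image]
      refine ⟨i - 2, ?_, by omega⟩
      have : i - 2 + 2 = i := by omega
      rw [Finset.mem_filter, Finset.mem_range, this]
      exact ⟨by omega, hi.2⟩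
    exact (Finset.card_le_card hsub).trans Finset.card_image_le
  refine le_trans ?_ hKc
  apply card_le_ind (av a 0) x (av a) c (fun i k => ((z i k : ℤ) : ℝ))
  · intro i hi
    rw [Finset.mem_filter, Finset.mem_range] at hi
    rw [hxz i hi.1]
    have : κ.getD (k i) 0 = j := hi.2
    rw [this]
  · intro l t hl hlt
    have h1 : ∀ j' < o.Δ.length, ∑ i ∈ Finset.range o.Δ.length,
        l i * ((gip G (o.Δ.getD i []) (o.Δ.getD j' []) : ℤ) : ℝ) = 0 := by
      intro j' hj'
      have h2 : B (∑ i ∈ (Finset.range o.Δ.length).filter (fun i => C i = j), l i • x i) (x j') =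
          B (t • av a 0) (x j') := by rw [hlt]
      rw [B_smul_left, B_comm (av a 0), hxe j' hj', mul_zero, B_sum_left] at h2
      rw [← h2]
      symm
      rw [Finset.sum_congr rfl fun i _ => by rw [B_smul_left, hxx]]
      apply Finset.sum_subset (Finset.filter_subset _ _)
      intro i _ hi
      rw [hl i hi, zero_mul]
    intro m hm
    rw [Finset.mem_filter, Finset.mem_range] at hm
    have h3 : ∀ i < o.Δ.length, ∑ j' ∈ Finset.range o.Δ.length,
        gip G (o.Δ.getD i []) (o.Δ.getD j' []) * ent o.K m j' = if i = m then o.D else 0 := by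
      intro i hi
      have h4 := ic_mulT (o.Δ.map fun x => o.Δ.map fun y => gip G x y) o.K
        (m := o.Δ.length) (i := i) (j := m) (by simpa using hi) (by omega) (by
          intro u hu
          rw [List.mem_map] at hu
          obtain ⟨x, _, rfl⟩ := hu
          simp)
      rw [hinv, ic_mat _ _ hi hm.1] at h4
      rw [h4]
      apply Finset.sum_congr rfl
      intro j' hj'
      rw [Finset.mem_range] at hj'
      congr 1
      unfold ent
      rw [List.getD_eq_getElem (o.Δ.map fun x => o.Δ.map fun y => gip G x y) _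
        (by simpa using hi), List.getElem_map, List.getD_eq_getElem o.Δ _ hi,
        List.getD_eq_getElem o.Δ _ hj',
        List.getD_eq_getElem (o.Δ.map fun y => gip G (o.Δ[i]) y) _ (by simpa using hj'),
        List.getElem_map]
    have h5 : ∑ j' ∈ Finset.range o.Δ.length, ((ent o.K m j' : ℤ) : ℝ) *
        ∑ i ∈ Finset.range o.Δ.length,
          l i * ((gip G (o.Δ.getD i []) (o.Δ.getD j' []) : ℤ) : ℝ) = 0 := by
      apply Finset.sum_eq_zero
      intro j' hj'
      rw [h1 j' (Finset.mem_range.1 hj'), mul_zero]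
    have h6 : ∑ j' ∈ Finset.range o.Δ.length, ((ent o.K m j' : ℤ) : ℝ) *
        ∑ i ∈ Finset.range o.Δ.length,
          l i * ((gip G (o.Δ.getD i []) (o.Δ.getD j' []) : ℤ) : ℝ) = l m * o.D := by
      simp_rw [Finset.mul_sum]
      rw [Finset.sum_comm]
      have e1 : ∀ i ∈ Finset.range o.Δ.length, ∑ j' ∈ Finset.range o.Δ.length,
          ((ent o.K m j' : ℤ) : ℝ) *
            (l i * ((gip G (o.Δ.getD i []) (o.Δ.getD j' []) : ℤ) : ℝ)) =
          if i = m then l m * o.D else 0 := by
        intro i hi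
        have e2 : ∑ j' ∈ Finset.range o.Δ.length, ((ent o.K m j' : ℤ) : ℝ) *
            (l i * ((gip G (o.Δ.getD i []) (o.Δ.getD j' []) : ℤ) : ℝ)) =
            l i * ((∑ j' ∈ Finset.range o.Δ.length,
              gip G (o.Δ.getD i []) (o.Δ.getD j' []) * ent o.K m j' : ℤ) : ℝ) := by
          push_cast
          rw [Finset.mul_sum]
          apply Finset.sum_congr rfl
          intro j' _
          ring
        rw [e2, h3 i (Finset.mem_range.1 hi)]
        by_cases him : i = m
        · rw [if_pos him, if_pos him, him]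
        · rw [if_neg him, if_neg him]
          simp
      rw [Finset.sum_congr rfl e1, Finset.sum_ite_eq' (Finset.range o.Δ.length) m,
        if_pos (Finset.mem_range.2 hm.1)]
    rw [h6] at h5
    have hD' : (o.D : ℝ) ≠ 0 := by exact_mod_cast hD
    exact (mul_eq_zero.1 h5).resolve_right hD'

end Pool.Agent.H27.CN3

end
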